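import Pool.Agent.TH652.Dual7
import Pool.Agent.W497.FS.Sphere

/-!
# The Charney-Davis inequality for the links of flag homology spheres
-/

set_option autoImplicit false
set_option linter.unusedSectionVars false

namespace Pool.Agent.Y132.SI

open Pool.Agent.W907.SG Pool.Agent.W907.SM
open Pool.Agent.TH652.Above

section

variable {V : Type} [Fintype V] [LinearOrder V] {G : SimpleGraph V}

/-- Betti numbers with trivial coefficients only depend on the induced graph -/
theorem beta_sub {U : Type} [Fintype U] [LinearOrder U] (H : SimpleGraph U) (φ : U → V) (hφ : StrictMono φ)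
    (hadj : ∀ u u', H.Adj u u' ↔ G.Adj (φ u) (φ u')) (B : Set U) (i : ℕ) :
    beta H (fun _ => (- LinearMap.id : ℝ →ₗ[ℝ] ℝ)) B ∅ i =
      beta G (fun _ => (- LinearMap.id : ℝ →ₗ[ℝ] ℝ)) (φ '' B) ∅ i := by
  classical
  have h1 := Pool.Agent.W52.SG.tr ↥B U ℝ ℝ H (H.induce B) (fun _ => (- LinearMap.id : ℝ →ₗ[ℝ] ℝ))
    (Subtype.val) (fun a b h => h) (fun _ _ => Iff.rfl) i
  have h2 := Pool.Agent.W52.SG.tr ↥B V ℝ ℝ G (H.induce B) (fun _ => (- LinearMap.id : ℝ →ₗ[ℝ] ℝ))
    (fun b => φ b.1) (fun a b h => hφ h) (fun _ _ => hadj _ _) i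
  have h3 : Set.range (fun b : ↥B => φ b.1) = φ '' B := by
    ext x; constructor
    · rintro ⟨b, rfl⟩; exact ⟨b.1, b.2, rfl⟩
    · rintro ⟨b, hb, rfl⟩; exact ⟨⟨b, hb⟩, rfl⟩
  rw [Subtype.range_coe] at h1
  rw [h3] at h2
  rw [h1, h2]

/-- the links of a flag homology sphere -/
theorem HSph_link {n : ℕ} (hS : HSph n G) {T : Finset V} (hT : G.IsClique (T : Set V)) [Fintype ↥(lk G T)] :
    HSph (n - T.card) (G.induce (lk G T)) := by
  classical
  have hcard := Pool.Agent.TH652.Dual.no_big hS hT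
  intro S hSc i
  set S' : Finset V := S.map (Function.Embedding.subtype _) with hS'
  have hmem : ∀ x, x ∈ S' ↔ ∃ h : x ∈ lk G T, (⟨x, h⟩ : ↥(lk G T)) ∈ S := by
    intro x
    rw [hS', Finset.mem_map]
    constructor
    · rintro ⟨y, hy, rfl⟩; exact ⟨y.2, hy⟩
    · rintro ⟨h, hx⟩; exact ⟨⟨x, h⟩, hx, rfl⟩
  have hdisj : Disjoint T S' := by
    rw [Finset.disjoint_left]
    intro x hx hx'
    obtain ⟨h, -⟩ := (hmem x).1 hx'
    exact G.loopless.irrefl x (h x hx)
  have hcl : G.IsClique ((T ∪ S' : Finset V) : Set V) := by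
    intro a ha b hb hab
    rw [Finset.mem_coe, Finset.mem_union] at ha hb
    rcases ha with ha | ha <;> rcases hb with hb | hb
    · exact hT ha hb hab
    · obtain ⟨h, -⟩ := (hmem b).1 hb
      exact (h a ha).symm
    · obtain ⟨h, -⟩ := (hmem a).1 ha
      exact h b hb
    · obtain ⟨h1, h1'⟩ := (hmem a).1 ha
      obtain ⟨h2, h2'⟩ := (hmem b).1 hb
      exact hSc (x := ⟨a, h1⟩) h1' (y := ⟨b, h2⟩) h2' (fun e => hab (congrArg Subtype.val e))
  have h1 := hS (T ∪ S') hcl i
  have h2 : (Subtype.val '' (lk (G.induce (lk G T)) S) : Set V) = lk G (T ∪ S') := by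
    ext x
    constructor
    · rintro ⟨y, hy, rfl⟩ u hu
      rw [Finset.mem_union] at hu
      rcases hu with hu | hu
      · exact y.2 u hu
      · obtain ⟨h, h'⟩ := (hmem u).1 hu
        exact hy ⟨u, h⟩ h'
    · intro hx
      refine ⟨⟨x, fun u hu => hx u (Finset.mem_union_left _ hu)⟩, fun u hu => ?_, rfl⟩
      exact hx u.1 (Finset.mem_union_right _ ((hmem u.1).2 ⟨u.2, hu⟩))
  rw [beta_sub (G := G) (G.induce (lk G T)) Subtype.val (fun a b h => h) (fun _ _ => Iff.rfl), h2, h1,
    Finset.card_union_of_disjoint hdisj, hS', Finset.card_map]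
  congr 1
  exact propext ⟨fun h => by omega, fun h => by omega⟩

/-- the Charney-Davis inequality for a link -/
theorem cd_link {d m : ℕ} (hS : HSph d G) {T : Finset V} (hT : G.IsClique (T : Set V)) (hm : T.card + 2 * m = d)
    [Fintype ↥(lk G T)] (h : AM d G ∨ AQ (2 * m) (G.induce (lk G T))) :
    0 ≤ (-1 : ℚ) ^ m * chiW (G.induce (lk G T)) := by
  have hL := HSph_link hS hT
  have hd : d - T.card = 2 * m := by omega
  rw [hd] at hL
  rcases h with h | h
  · refine chi_sign _ fun i hi => singer_of_above hL (fun i hi => ?_) i (by omega)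
    exact (P_of_AM h).2 T hT (lk G T) (fun a ha t ht => (ha t ht).symm) i (by omega) _ _
  · exact charney_davis_AQ hL h

open Classical in
/-- the Euler characteristic of a link -/
theorem chiW_link {T : Finset V} (hT : G.IsClique (T : Set V)) [Fintype ↥(lk G T)] :
    chiW (G.induce (lk G T)) = ∑ σ : Finset V, if G.IsClique (σ : Set V) ∧ T ⊆ σ then
      (-1 / 2 : ℚ) ^ (σ.card - T.card) else 0 := by
  have hL : chiW (G.induce (lk G T)) = ∑ S ∈ Finset.univ.filter
      (fun S : Finset ↥(lk G T) => (G.induce (lk G T)).IsClique (S : Set ↥(lk G T))), (-1 / 2 : ℚ) ^ S.card := by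
    rw [Finset.sum_filter]
    unfold chiW
    refine Finset.sum_congr rfl fun S _ => ?_
    split_ifs <;> rfl
  rw [hL, ← Finset.sum_filter]
  refine Finset.sum_bij' (fun S _ => T ∪ S.map (Function.Embedding.subtype _))
    (fun σ _ => (σ \ T).subtype (fun x => x ∈ lk G T)) ?_ ?_ ?_ ?_ ?_
  · intro S hS
    rw [Finset.mem_filter] at hS ⊢
    refine ⟨Finset.mem_univ _, ?_, Finset.subset_union_left⟩
    intro a ha b hb hab
    rw [Finset.mem_coe, Finset.mem_union, Finset.mem_map] at ha hb
    rcases ha with ha | ⟨x, hx, rfl⟩ <;> rcases hb with hb | ⟨y, hy, rfl⟩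
    · exact hT ha hb hab
    · exact (y.2 a ha).symm
    · exact x.2 b hb
    · exact hS.2 hx hy (fun e => hab (congrArg Subtype.val e))
  · intro σ hσ
    rw [Finset.mem_filter] at hσ ⊢
    refine ⟨Finset.mem_univ _, ?_⟩
    intro a ha b hb hab
    rw [Finset.mem_coe, Finset.mem_subtype, Finset.mem_sdiff] at ha hb
    exact hσ.2.1 ha.1 hb.1 (fun e => hab (Subtype.ext e))
  · intro S hS
    ext x
    rw [Finset.mem_subtype, Finset.mem_sdiff, Finset.mem_union, Finset.mem_map]
    constructor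
    · rintro ⟨h1 | ⟨y, hy, h⟩, h2⟩
      · exact absurd h1 h2
      · have : y = x := Subtype.ext h
        exact this ▸ hy
    · intro hx
      exact ⟨Or.inr ⟨x, hx, rfl⟩, fun hx' => G.loopless.irrefl _ (x.2 x.1 hx')⟩
  · intro σ hσ
    rw [Finset.mem_filter] at hσ
    ext x
    rw [Finset.mem_union, Finset.mem_map]
    constructor
    · rintro (h | ⟨y, hy, rfl⟩)
      · exact hσ.2.2 h
      · rw [Finset.mem_subtype, Finset.mem_sdiff] at hy
        exact hy.1
    · intro hx
      by_cases hxT : x ∈ T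
      · exact Or.inl hxT
      · right
        refine ⟨⟨x, fun u hu => hσ.2.1 hx (hσ.2.2 hu) (fun e => hxT (e ▸ hu))⟩, ?_, rfl⟩
        rw [Finset.mem_subtype, Finset.mem_sdiff]
        exact ⟨hx, hxT⟩
  · intro S hS
    congr 1
    have hdisj : Disjoint T (S.map (Function.Embedding.subtype _)) := by
      rw [Finset.disjoint_left]
      intro x hx hx'
      rw [Finset.mem_map] at hx'
      obtain ⟨y, -, rfl⟩ := hx'
      exact G.loopless.irrefl _ (y.2 _ hx)
    rw [Finset.card_union_of_disjoint hdisj, Finset.card_map]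
    omega

open Classical in
/-- summed over the links of the simplices with `k` elements -/
theorem sum_links {d m : ℕ} (hS : HSph d G) (hm : 2 * m ≤ d)
    (h : AM d G ∨ ∀ T : Finset V, G.IsClique (T : Set V) → T.card + 2 * m = d → AQ (2 * m) (G.induce (lk G T))) :
    0 ≤ (-1 : ℚ) ^ m * ∑ σ : Finset V, if G.IsClique (σ : Set V) then
      (σ.card.choose (d - 2 * m) : ℚ) * (-1 / 2 : ℚ) ^ (σ.card - (d - 2 * m)) else 0 := by
  set k := d - 2 * m with hk
  have h1 : ∑ σ : Finset V, (if G.IsClique (σ : Set V) then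
      (σ.card.choose k : ℚ) * (-1 / 2 : ℚ) ^ (σ.card - k) else 0) =
      ∑ T ∈ Finset.univ.filter (fun T : Finset V => G.IsClique (T : Set V) ∧ T.card = k),
        ∑ σ : Finset V, if G.IsClique (σ : Set V) ∧ T ⊆ σ then (-1 / 2 : ℚ) ^ (σ.card - T.card) else 0 := by
    rw [Finset.sum_comm]
    refine Finset.sum_congr rfl fun σ _ => ?_
    by_cases hσ : G.IsClique (σ : Set V)
    · rw [if_pos hσ]
      have h2 : ∀ T ∈ Finset.univ.filter (fun T : Finset V => G.IsClique (T : Set V) ∧ T.card = k),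
          (if G.IsClique (σ : Set V) ∧ T ⊆ σ then (-1 / 2 : ℚ) ^ (σ.card - T.card) else 0) =
          if T ⊆ σ then (-1 / 2 : ℚ) ^ (σ.card - k) else 0 := by
        intro T hT
        rw [Finset.mem_filter] at hT
        rw [hT.2.2]
        simp only [hσ, true_and]
      rw [Finset.sum_congr rfl h2, ← Finset.sum_filter, Finset.sum_const, nsmul_eq_mul]
      congr 2
      rw [← Finset.card_powersetCard]
      congr 1
      ext T
      simp only [Finset.mem_filter, Finset.mem_univ, true_and, Finset.mem_powersetCard]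
      constructor
      · rintro ⟨a, b⟩; exact ⟨⟨hσ.subset (Finset.coe_subset.2 a), b⟩, a⟩
      · rintro ⟨a, b⟩; exact ⟨b, a.2⟩
    · rw [if_neg hσ]
      symm
      exact Finset.sum_eq_zero fun T _ => if_neg fun h => hσ h.1
  rw [h1, Finset.mul_sum]
  refine Finset.sum_nonneg fun T hT => ?_
  rw [Finset.mem_filter] at hT
  have : Fintype ↥(lk G T) := Fintype.ofFinite _
  rw [← chiW_link hT.2.1]
  refine cd_link hS hT.2.1 (by omega) ?_
  rcases h with h | h
  · exact Or.inl h
  · exact Or.inr (h T hT.2.1 (by omega))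

end

end Pool.Agent.Y132.SI
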