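import Pool.Agent.Y132.SI.CD

/-!
# The gamma polynomial at `1/4`
-/

set_option autoImplicit false

namespace Pool.Agent.Y132.SI

open Polynomial

open Classical in
/-- the cliques of a graph on `Fin n`, i.e. the simplices (including the empty one) of its flag complex -/
noncomputable def cliques {n : ℕ} (G : SimpleGraph (Fin n)) : Finset (Finset (Fin n)) :=
  Finset.univ.filter (fun T => G.IsClique (T : Set (Fin n)))

theorem mem_cliques {n : ℕ} {G : SimpleGraph (Fin n)} {T : Finset (Fin n)} :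
    T ∈ cliques G ↔ G.IsClique (T : Set (Fin n)) := by
  unfold cliques
  simp

theorem sum_card {n d : ℕ} {S : Finset (Finset (Fin n))} (hd : ∀ F ∈ S, F.card ≤ d) (g : ℕ → ℚ) :
    ∑ σ ∈ S, g σ.card = ∑ j ∈ Finset.range (d + 1), ((S.filter (fun F => F.card = j)).card : ℚ) * g j := by
  rw [← Finset.sum_fiberwise_of_maps_to (t := Finset.range (d + 1)) (g := fun F : Finset (Fin n) => F.card)
    (fun F hF => Finset.mem_range.2 (by have := hd F hF; omega))]
  refine Finset.sum_congr rfl fun j _ => ?_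
  rw [Finset.sum_congr rfl (fun F hF => by rw [(Finset.mem_filter.1 hF).2] : ∀ F ∈ S.filter (fun F => F.card = j),
    g F.card = g j), Finset.sum_const, nsmul_eq_mul]

theorem gam_poly {n d : ℕ} {S : Finset (Finset (Fin n))} (hd : ∀ F ∈ S, F.card ≤ d) {γ : ℕ → ℤ}
    (hγ : Pool.Agent.W497.FS.IsGamma d S γ) :
    ∑ σ ∈ S, (X + C (-1 / 2 : ℚ)) ^ σ.card =
      ∑ i ∈ Finset.range (d / 2 + 1), C (γ i : ℚ) * ((X ^ 2 + C (-1 / 4 : ℚ)) ^ i * (C 2 * X) ^ (d - 2 * i)) := by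
  refine Polynomial.eq_of_infinite_eval_eq _ _ ((Set.finite_singleton (-1 / 2 : ℚ)).infinite_compl.mono ?_)
  intro y hy
  have hy' : y ≠ -1 / 2 := hy
  simp only [Set.mem_ofPred_eq, Polynomial.eval_finsetSum, Polynomial.eval_pow, Polynomial.eval_add, Polynomial.eval_X,
    Polynomial.eval_C, Polynomial.eval_mul]
  have hs : y + 1 / 2 ≠ 0 := fun h => hy' (by linarith)
  set s := y + 1 / 2 with hsdef
  set x := y - 1 / 2 with hxdef
  have h1 := congrArg (fun p : ℤ[X] => (p.map (Int.castRingHom ℚ)).eval (x / s)) hγ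
  simp only [Polynomial.map_sum, Polynomial.map_mul, Polynomial.map_pow, Polynomial.map_sub, Polynomial.map_add,
    Polynomial.map_one, Polynomial.map_X, Polynomial.map_C, Polynomial.eval_finsetSum, Polynomial.eval_mul,
    Polynomial.eval_pow, Polynomial.eval_sub, Polynomial.eval_add, Polynomial.eval_one, Polynomial.eval_X,
    Polynomial.eval_C] at h1
  simp only [eq_intCast, Int.cast_natCast] at h1
  have e1 : (1 : ℚ) - x / s = 1 / s := by
    rw [eq_div_iff hs, sub_mul, div_mul_cancel₀ _ hs]; linarith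
  have e2 : (1 : ℚ) + x / s = 2 * y / s := by
    rw [eq_div_iff hs, add_mul, div_mul_cancel₀ _ hs]; linarith
  rw [e1, e2] at h1
  have h2 := congrArg (fun z => z * s ^ d) h1
  simp only [Finset.sum_mul] at h2
  have h3 : ∀ j ∈ Finset.range (d + 1), (((S.filter (fun F => F.card = j)).card : ℕ) : ℚ) * (x / s) ^ j *
      (1 / s) ^ (d - j) * s ^ d = ((S.filter (fun F => F.card = j)).card : ℚ) * x ^ j := by
    intro j hj
    rw [Finset.mem_range] at hj
    obtain ⟨k, rfl⟩ : ∃ k, d = j + k := ⟨d - j, by omega⟩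
    rw [Nat.add_sub_cancel_left, pow_add, div_pow, div_pow, one_pow]
    field_simp
  have h4 : ∀ i ∈ Finset.range (d / 2 + 1), (γ i : ℚ) * (x / s) ^ i * (2 * y / s) ^ (d - 2 * i) * s ^ d =
      (γ i : ℚ) * ((y ^ 2 + -1 / 4) ^ i * (2 * y) ^ (d - 2 * i)) := by
    intro i hi
    rw [Finset.mem_range] at hi
    obtain ⟨k, rfl⟩ : ∃ k, d = 2 * i + k := ⟨d - 2 * i, by omega⟩
    have e3 : y ^ 2 + -1 / 4 = x * s := by rw [hxdef, hsdef]; ring
    rw [Nat.add_sub_cancel_left, pow_add, div_pow, div_pow, e3, mul_pow, two_mul, pow_add]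
    field_simp
    ring_nf
  rw [Finset.sum_congr rfl h3, Finset.sum_congr rfl h4] at h2
  rw [← h2, ← sum_card hd (fun j => x ^ j)]
  refine Finset.sum_congr rfl fun σ _ => ?_
  rw [hxdef]
  congr 1
  ring

theorem coeff_q (d m i : ℕ) (hm : 2 * m ≤ d) (hi : 2 * i ≤ d) :
    ((X ^ 2 + C (-1 / 4 : ℚ)) ^ i * (C 2 * X) ^ (d - 2 * i)).coeff (d - 2 * m) =
      (i.choose m : ℚ) * (-1 / 4) ^ m * 2 ^ (d - 2 * i) := by
  have h1 : (X ^ 2 + C (-1 / 4 : ℚ)) ^ i = Polynomial.expand ℚ 2 ((X + C (-1 / 4 : ℚ)) ^ i) := by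
    simp [Polynomial.expand_X, Polynomial.expand_C]
  rw [h1, mul_pow, ← C_pow, ← mul_assoc, Polynomial.coeff_mul_X_pow', mul_comm _ (C _), Polynomial.coeff_C_mul,
    Polynomial.coeff_expand (by norm_num : 0 < 2)]
  by_cases hmi : m ≤ i
  · have h2 : d - 2 * m - (d - 2 * i) = 2 * (i - m) := by omega
    rw [if_pos (by omega), h2, if_pos (Dvd.intro _ rfl), Nat.mul_div_cancel_left _ (by norm_num : 0 < 2),
      Polynomial.coeff_X_add_C_pow, Nat.sub_sub_self hmi, Nat.choose_symm hmi]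
    ring
  · rw [if_neg (by omega), Nat.choose_eq_zero_of_lt (by omega)]
    simp

/-- the main inequality -/
theorem gamma_quarter {n d m : ℕ} {S : Finset (Finset (Fin n))} (hd : ∀ F ∈ S, F.card ≤ d) {γ : ℕ → ℤ}
    (hγ : Pool.Agent.W497.FS.IsGamma d S γ) (hm : 2 * m ≤ d)
    (h : 0 ≤ (-1 : ℚ) ^ m * ∑ σ ∈ S, (σ.card.choose (d - 2 * m) : ℚ) * (-1 / 2) ^ (σ.card - (d - 2 * m))) :
    0 ≤ ∑ i ∈ Finset.range (d / 2 + 1), (i.choose m : ℚ) * γ i / 4 ^ i := by
  have h1 := congrArg (fun p : ℚ[X] => p.coeff (d - 2 * m)) (gam_poly hd hγ)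
  simp only [Polynomial.finsetSum_coeff, Polynomial.coeff_C_mul, Polynomial.coeff_X_add_C_pow] at h1
  have h2 : ∑ σ ∈ S, (σ.card.choose (d - 2 * m) : ℚ) * (-1 / 2) ^ (σ.card - (d - 2 * m)) =
      ∑ i ∈ Finset.range (d / 2 + 1), (γ i : ℚ) * ((i.choose m : ℚ) * (-1 / 4) ^ m * 2 ^ (d - 2 * i)) := by
    rw [show ∑ σ ∈ S, (σ.card.choose (d - 2 * m) : ℚ) * (-1 / 2) ^ (σ.card - (d - 2 * m)) =
      ∑ σ ∈ S, (-1 / 2 : ℚ) ^ (σ.card - (d - 2 * m)) * (σ.card.choose (d - 2 * m) : ℚ) from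
        Finset.sum_congr rfl fun _ _ => mul_comm _ _, h1]
    refine Finset.sum_congr rfl fun i hi => ?_
    rw [Finset.mem_range] at hi
    rw [coeff_q d m i hm (by omega)]
  rw [h2, Finset.mul_sum] at h
  have h3 : ∑ i ∈ Finset.range (d / 2 + 1), (-1 : ℚ) ^ m * ((γ i : ℚ) * ((i.choose m : ℚ) * (-1 / 4) ^ m *
      2 ^ (d - 2 * i))) = (2 ^ d / 4 ^ m) * ∑ i ∈ Finset.range (d / 2 + 1), (i.choose m : ℚ) * γ i / 4 ^ i := by
    rw [Finset.mul_sum]
    refine Finset.sum_congr rfl fun i hi => ?_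
    rw [Finset.mem_range] at hi
    obtain ⟨k, rfl⟩ : ∃ k, d = 2 * i + k := ⟨d - 2 * i, by omega⟩
    have e1 : (-1 / 4 : ℚ) ^ m = (-1) ^ m / 4 ^ m := by rw [div_pow]
    have e2 : (-1 : ℚ) ^ m * (-1) ^ m = 1 := by rw [← mul_pow]; norm_num
    have e3 : (2 : ℚ) ^ (2 * i + k) = 4 ^ i * 2 ^ k := by rw [pow_add, pow_mul]; norm_num
    rw [Nat.add_sub_cancel_left, e1, e3]
    calc (-1 : ℚ) ^ m * ((γ i : ℚ) * ((i.choose m : ℚ) * ((-1) ^ m / 4 ^ m) * 2 ^ k))
        = ((-1 : ℚ) ^ m * (-1) ^ m) * ((γ i : ℚ) * (i.choose m : ℚ) / 4 ^ m * 2 ^ k) := by ring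
      _ = _ := by
        rw [e2]
        field_simp
  rw [h3] at h
  have h4 : (0 : ℚ) < 2 ^ d / 4 ^ m := by positivity
  exact nonneg_of_mul_nonneg_right h h4

end Pool.Agent.Y132.SI
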