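import Pool.Agent.Y132.SI.Gam
import Pool.Agent.Y365.FS.Wt2

/-!
# The Charney-Davis quantity with weights
-/

set_option autoImplicit false

namespace Pool.Agent.Y132.SI

open Pool.Agent.W907.SG Pool.Agent.W907.SM Pool.Agent.TH652.Above

open Classical in
/-- the weighted quantity is a combination of the Charney-Davis quantities of the links -/
theorem weighted_links {n : ℕ} (G : SimpleGraph (Fin n)) (N : Finset (Fin n) → ℚ) :
    ∑ σ ∈ cliques G, (-1 : ℚ) ^ σ.card / N σ =
      ∑ T ∈ cliques G, (-1 : ℚ) ^ T.card * Y365.FS.bN N T *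
        ∑ σ : Finset (Fin n), if G.IsClique (σ : Set (Fin n)) ∧ T ⊆ σ then
          (-1 / 2 : ℚ) ^ (σ.card - T.card) else 0 := by
  have h1 : ∀ σ ∈ cliques G, (-1 : ℚ) ^ σ.card / N σ = ∑ T ∈ cliques G, if T ⊆ σ then
      (-1 : ℚ) ^ σ.card * ((1 / 2) ^ (σ.card - T.card) * Y365.FS.bN N T) else 0 := by
    intro σ hσ
    rw [div_eq_mul_one_div, Y365.FS.inversion N σ, Finset.mul_sum, ← Finset.sum_filter]
    refine Finset.sum_congr ?_ fun _ _ => rfl
    ext T
    simp only [Finset.mem_filter, Finset.mem_powerset, mem_cliques]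
    exact ⟨fun h => ⟨(mem_cliques.1 hσ).subset (Finset.coe_subset.2 h), h⟩, fun h => h.2⟩
  rw [Finset.sum_congr rfl h1, Finset.sum_comm]
  refine Finset.sum_congr rfl fun T hT => ?_
  rw [Finset.mul_sum]
  have h2 : ∑ σ : Finset (Fin n), (-1 : ℚ) ^ T.card * Y365.FS.bN N T *
      (if G.IsClique (σ : Set (Fin n)) ∧ T ⊆ σ then (-1 / 2 : ℚ) ^ (σ.card - T.card) else 0) =
      ∑ σ ∈ cliques G, (-1 : ℚ) ^ T.card * Y365.FS.bN N T *
      (if T ⊆ σ then (-1 / 2 : ℚ) ^ (σ.card - T.card) else 0) := by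
    rw [cliques, Finset.sum_filter]
    refine Finset.sum_congr rfl fun σ _ => ?_
    by_cases hσ : G.IsClique (σ : Set (Fin n))
    · simp only [hσ, true_and, if_true]
    · simp only [hσ, false_and, if_false, mul_zero]
  rw [h2]
  refine Finset.sum_congr rfl fun σ _ => ?_
  by_cases h : T ⊆ σ
  · rw [if_pos h, if_pos h]
    have h3 := Finset.card_le_card h
    have h4 : (-1 : ℚ) ^ σ.card = (-1) ^ T.card * (-1) ^ (σ.card - T.card) := by
      rw [← pow_add]; congr 1; omega
    have h5 : (-1 / 2 : ℚ) ^ (σ.card - T.card) = (-1) ^ (σ.card - T.card) * (1 / 2) ^ (σ.card - T.card) := by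
      rw [← mul_pow]; congr 1; norm_num
    rw [h4, h5]
    ring
  · rw [if_neg h, if_neg h, mul_zero]

/-- the weighted inequality -/
theorem weighted_class {n m : ℕ} {G : SimpleGraph (Fin n)} (hS : HSph (2 * m) G)
    (hC : AM (2 * m) G ∨ ∀ (T : Finset (Fin n)) (j : ℕ), G.IsClique (T : Set (Fin n)) → T.card + 2 * j = 2 * m →
      AQ (2 * j) (G.induce (lk G T)))
    {N : Finset (Fin n) → ℚ} (hN : Y365.FS.GoodOrders (cliques G) N) :
    0 ≤ (-1) ^ m * ∑ σ ∈ cliques G, (-1 : ℚ) ^ σ.card / N σ := by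
  classical
  rw [weighted_links, Finset.mul_sum]
  refine Finset.sum_nonneg fun T hT => ?_
  have hTc := mem_cliques.1 hT
  have hTd := Pool.Agent.TH652.Dual.no_big hS hTc
  rcases Nat.even_or_odd T.card with ⟨j, hj⟩ | ho
  · obtain ⟨l, hl⟩ : ∃ l, m = j + l := ⟨m - j, by omega⟩
    have h1 := (hN T hT).2 j (by omega)
    have : Fintype ↥(lk G T) := Fintype.ofFinite _
    have h2 : 0 ≤ (-1 : ℚ) ^ l * chiW (G.induce (lk G T)) := by
      refine cd_link hS hTc (by omega) ?_
      rcases hC with h | h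
      · exact Or.inl h
      · exact Or.inr (h T l hTc (by omega))
    rw [chiW_link hTc] at h2
    have h4 : (-1 : ℚ) ^ T.card = 1 := by rw [hj]; exact Even.neg_one_pow ⟨j, rfl⟩
    have h3 := mul_nonneg h1 h2
    rw [hl, h4, pow_add]
    have h5 : ∀ a b c e : ℚ, (a * b) * (c * e) = a * c * (1 * b * e) := fun a b c e => by ring
    rw [h5] at h3
    convert h3
  · rw [(hN T hT).1 ho]
    simp

end Pool.Agent.Y132.SI
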